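import Mathlib

/-!
# `Z*`-algebras: common annihilators of countable sets
-/

set_option autoImplicit false

namespace Pool.Agent.Q193.ZS

open Filter Topology

/-- `x` is a zero divisor: `x y = 0` or `y x = 0` for some nonzero `y`. -/
def IsZeroDivisor {A : Type*} [NonUnitalCStarAlgebra A] (x : A) : Prop :=
  ∃ y : A, y ≠ 0 ∧ (x * y = 0 ∨ y * x = 0)

/-- A C*-algebra is `Z*` if every positive element (element of the form `z* z`) is a
zero divisor. -/
def IsZStar (A : Type*) [NonUnitalCStarAlgebra A] : Prop :=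
  ∀ z : A, IsZeroDivisor (star z * z)

variable {A : Type*} [NonUnitalCStarAlgebra A]

lemma star_self (z : A) : star (star z * z) = star z * z := by
  rw [star_mul, star_star]

lemma left_of_zd {z : A} (h : IsZeroDivisor (star z * z)) : ∃ y : A, y ≠ 0 ∧ y * (star z * z) = 0 := by
  obtain ⟨y, hy, h | h⟩ := h
  · refine ⟨star y, star_ne_zero.mpr hy, ?_⟩
    have := congrArg star h
    rwa [star_mul, star_self, star_zero] at this
  · exact ⟨y, hy, h⟩

/-- In a `Z*`-algebra every sequence has a common nonzero left annihilator. -/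
theorem exists_left (hA : IsZStar A) (a : ℕ → A) : ∃ x : A, x ≠ 0 ∧ ∀ i, x * a i = 0 := by
  let _ := CStarAlgebra.spectralOrder A
  have := CStarAlgebra.spectralOrderedRing A
  let c : ℕ → ℝ := fun i => (1 / 2) ^ i / (1 + ‖a i‖ ^ 2)
  have hc : ∀ i, 0 < c i := fun i => by positivity
  let t : ℕ → A := fun i => c i • (a i * star (a i))
  have ht : ∀ i, ‖t i‖ ≤ (1 / 2 : ℝ) ^ i := by
    intro i
    change ‖c i • (a i * star (a i))‖ ≤ _
    rw [norm_smul, CStarRing.norm_self_mul_star, Real.norm_of_nonneg (hc i).le]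
    change (1 / 2) ^ i / (1 + ‖a i‖ ^ 2) * (‖a i‖ * ‖a i‖) ≤ _
    rw [div_mul_eq_mul_div, div_le_iff₀ (by positivity)]
    have h1 : (0 : ℝ) < (1 / 2) ^ i := by positivity
    nlinarith [norm_nonneg (a i)]
  have hsum : Summable t :=
    Summable.of_norm_bounded (summable_geometric_of_lt_one (by norm_num) (by norm_num)) ht
  have hs0 : 0 ≤ ∑' i, t i :=
    tsum_nonneg fun i => smul_nonneg (hc i).le (mul_star_self_nonneg (a i))
  set s : A := ∑' i, t i with hs
  have hsq : star (CFC.sqrt s) * CFC.sqrt s = s := by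
    have h1 : star (CFC.sqrt s) = CFC.sqrt s := (CFC.sqrt_nonneg s).isSelfAdjoint.star_eq
    rw [h1]
    exact CFC.sqrt_mul_sqrt_self s hs0
  obtain ⟨x, hx, hxs⟩ := left_of_zd (hA (CFC.sqrt s))
  rw [hsq] at hxs
  refine ⟨x, hx, fun i => ?_⟩
  have hS : HasSum (fun i => x * t i * star x) (x * s * star x) :=
    (hsum.hasSum.mul_left x).mul_right (star x)
  rw [hxs, zero_mul] at hS
  have hform : ∀ j, x * t j * star x = c j • ((x * a j) * star (x * a j)) := by
    intro j
    change x * (c j • (a j * star (a j))) * star x = _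
    rw [mul_smul_comm, smul_mul_assoc, star_mul]
    simp only [mul_assoc]
  have hnn : ∀ j, 0 ≤ x * t j * star x := by
    intro j
    rw [hform]
    exact smul_nonneg (hc j).le (mul_star_self_nonneg _)
  have hle := le_hasSum hS i fun j _ => hnn j
  have h0 : x * t i * star x = 0 := le_antisymm hle (hnn i)
  rw [hform, smul_eq_zero] at h0
  rcases h0 with h0 | h0
  · exact absurd h0 (hc i).ne'
  · exact CStarRing.mul_star_self_eq_zero_iff _ |>.mp h0

/-- In a `Z*`-algebra every sequence has a common nonzero right annihilator. -/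
theorem exists_right (hA : IsZStar A) (a : ℕ → A) : ∃ x : A, x ≠ 0 ∧ ∀ i, a i * x = 0 := by
  obtain ⟨x, hx, h⟩ := exists_left hA fun i => star (a i)
  refine ⟨star x, star_ne_zero.mpr hx, fun i => ?_⟩
  have := congrArg star (h i)
  rwa [star_mul, star_star, star_zero] at this

/-- every element of the closure of a span lies in the closed span of a sequence -/
theorem exists_seq {B : Type*} [NormedAddCommGroup B] [NormedSpace ℂ B] {S : Set B}
    (hS : S.Nonempty) {b : B} (hb : b ∈ closure (Submodule.span ℂ S : Set B)) :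
    ∃ g : ℕ → B, (∀ n, g n ∈ S) ∧ b ∈ closure (Submodule.span ℂ (Set.range g) : Set B) := by
  classical
  have hex : ∀ n : ℕ, ∃ c ∈ Submodule.span ℂ S, ‖b - c‖ < 1 / ((n : ℝ) + 1) := by
    intro n
    obtain ⟨c, hc, hbc⟩ := Metric.mem_closure_iff.mp hb (1 / ((n : ℝ) + 1)) (by positivity)
    exact ⟨c, hc, by rwa [dist_eq_norm] at hbc⟩
  choose c hc hbc using hex
  have hfin : ∀ n, ∃ T : Finset B, (T : Set B) ⊆ S ∧ c n ∈ Submodule.span ℂ (T : Set B) :=
    fun n => Submodule.mem_span_finite_of_mem_span (hc n)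
  choose T hT hcT using hfin
  have hcount : (⋃ n, (T n : Set B)).Countable :=
    Set.countable_iUnion fun n => (T n).countable_toSet
  obtain ⟨s₀, hs₀⟩ := hS
  have hcount' : (insert s₀ (⋃ n, (T n : Set B))).Countable := hcount.insert s₀
  obtain ⟨g, hg⟩ := hcount'.exists_eq_range (Set.insert_nonempty _ _)
  refine ⟨g, fun n => ?_, ?_⟩
  · have : g n ∈ insert s₀ (⋃ n, (T n : Set B)) := by rw [hg]; exact ⟨n, rfl⟩
    rcases this with h | h
    · rw [h]; exact hs₀
    · obtain ⟨m, hm⟩ := Set.mem_iUnion.mp h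
      exact hT m hm
  · rw [Metric.mem_closure_iff]
    intro ε hε
    obtain ⟨n, hn⟩ := exists_nat_one_div_lt hε
    refine ⟨c n, ?_, ?_⟩
    · refine Submodule.span_mono ?_ (hcT n)
      rw [← hg]
      exact (Set.subset_iUnion (fun n => (T n : Set B)) n).trans (Set.subset_insert _ _)
    · rw [dist_eq_norm]
      exact (hbc n).trans hn

end Pool.Agent.Q193.ZS
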